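import Pool.Agent.C4K.StDet

/-!
# RDS: reading sets are stopping sets
-/

set_option autoImplicit false

namespace Pool.Agent.C4K.H31

open Finset Cl Pool.Agent.C4K
open scoped Classical

noncomputable section

variable {V : Type} [Fintype V] {C : Cl V} {T : ℕ}

theorem mult_congr {om om' : C.Wk T → Bool} {x : V}
    (h : ∀ w : C.Wk T, w.has x → om' w = om w) : mult om' x = mult om x := by
  unfold mult
  congr 1
  ext w
  simp only [mem_filter, mem_univ, true_and]
  constructor
  · rintro ⟨h1, h2⟩; exact ⟨by rw [← h w h2]; exact h1, h2⟩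
  · rintro ⟨h1, h2⟩; exact ⟨by rw [h w h2]; exact h1, h2⟩

theorem mult_one_uniq {om : C.Wk T → Bool} {x : V} (h : mult om x = 1) {w w' : C.Wk T}
    (h1 : om w = true) (h2 : w.has x) (h3 : om w' = true) (h4 : w'.has x) : w = w' := by
  unfold mult at h
  exact card_le_one.1 h.le w (mem_filter.2 ⟨mem_univ _, h1, h2⟩) w'
    (mem_filter.2 ⟨mem_univ _, h3, h4⟩)

theorem card_le_rel {α β : Type} (S : Finset β) (A : Finset α) (R : α → β → Prop)
    (h1 : ∀ u ∈ S, ∃ x ∈ A, R x u) (h2 : ∀ x u u', R x u → R x u' → u = u') :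
    S.card ≤ A.card := by
  rcases S.eq_empty_or_nonempty with h | ⟨u0, hu0⟩
  · simp [h]
  · obtain ⟨x0, _, _⟩ := h1 u0 hu0
    let g : β → α := fun u => if h : u ∈ S then (h1 u h).choose else x0
    have hg : ∀ u (h : u ∈ S), g u ∈ A ∧ R (g u) u := by
      intro u h
      have : g u = (h1 u h).choose := by simp only [g]; rw [dif_pos h]
      rw [this]
      exact (h1 u h).choose_spec
    apply card_le_card_of_injOn g (fun u hu => (hg u hu).1)
    intro u hu u' hu' huu
    apply h2 (g u) u u' (hg u hu).2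
    rw [huu]
    exact (hg u' hu').2

section rds

variable {L : ℕ}

theorem mem_fw {om : C.Wk T → Bool} {v u : V} :
    u ∈ fw L om v ↔ ∃ j, j ≤ L ∧ it (cx om) j v = some u := by
  simp [fw]

theorem mem_bw {om : C.Wk T → Bool} {v u : V} :
    u ∈ bw L om v ↔ ∃ j, j ≤ L ∧ it (cx om) j u = some v := by
  simp [bw]

theorem mem_rd {om : C.Wk T → Bool} {v u : V} :
    u ∈ rd L om v ↔ (u ∈ fw L om v ∨
    (∃ w : C.Wk T, om w = true ∧ ∃ i, i < T ∧ w.n (i + 1) = u ∧ w.n i ∈ fw L om v ∧
      mult om (w.n i) = 1) ∨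
    (∃ u' ∈ bw L om v, C.f u = some u') ∨
    (∃ w : C.Wk T, om w = true ∧ ∃ i, i < T ∧ w.n i = u ∧ mult om (w.n (i + 1)) = 1 ∧
      ∃ u' ∈ bw L om v, w.hd i u')) := by
  simp [rd]

variable {om om' : C.Wk T → Bool} {v : V}

/-- agreement at one node of the reading set -/
theorem ag_om (h : ∀ w : C.Wk T, w.meets (rd L om v) → om' w = om w) {w : C.Wk T} {i : ℕ}
    (hi : i ≤ T) (hx : w.n i ∈ rd L om v) : om' w = om w :=
  h w ⟨i, hi, hx⟩

theorem ag_mult (h : ∀ w : C.Wk T, w.meets (rd L om v) → om' w = om w) {x : V}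
    (hx : x ∈ rd L om v) : mult om' x = mult om x := by
  apply mult_congr
  rintro w ⟨i, hi, rfl⟩
  exact ag_om h hi hx

theorem arc_fw (h : ∀ w : C.Wk T, w.meets (rd L om v) → om' w = om w) {x : V}
    (hx : x ∈ fw L om v) (y : V) : arc om' x y ↔ arc om x y := by
  have hxr : x ∈ rd L om v := mem_rd.2 (Or.inl hx)
  have hm := ag_mult h hxr
  unfold arc
  rw [hm]
  apply or_congr_right
  unfold lnk
  constructor
  · rintro ⟨w, h1, i, hi, rfl, h3, h4, h5⟩
    have h6 : om w = true := by rw [← ag_om h hi.le hxr]; exact h1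
    rw [hm] at h4
    have h7 : w.n (i + 1) ∈ rd L om v :=
      mem_rd.2 (Or.inr (Or.inl ⟨w, h6, i, hi, rfl, hx, h4⟩))
    exact ⟨w, h6, i, hi, rfl, h3, h4, by rw [← ag_mult h h7]; exact h5⟩
  · rintro ⟨w, h1, i, hi, rfl, h3, h4, h5⟩
    have h6 : om' w = true := by rw [ag_om h hi.le hxr]; exact h1
    have h7 : w.n (i + 1) ∈ rd L om v :=
      mem_rd.2 (Or.inr (Or.inl ⟨w, h1, i, hi, rfl, hx, h4⟩))
    exact ⟨w, h6, i, hi, rfl, h3, by rw [hm]; exact h4, by rw [ag_mult h h7]; exact h5⟩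

theorem arc_bw (h : ∀ w : C.Wk T, w.meets (rd L om v) → om' w = om w) {y : V}
    (hy : y ∈ bw L om v) (x : V) : arc om' x y ↔ arc om x y := by
  have ha : ∀ a, C.f a = some y → a ∈ rd L om v := fun a h1 =>
    mem_rd.2 (Or.inr (Or.inr (Or.inl ⟨y, hy, h1⟩)))
  unfold arc
  apply or_congr
  · constructor
    · rintro ⟨h1, h2⟩; exact ⟨by rw [← ag_mult h (ha x h2)]; exact h1, h2⟩
    · rintro ⟨h1, h2⟩; exact ⟨by rw [ag_mult h (ha x h2)]; exact h1, h2⟩
  · unfold lnk
    constructor
    · rintro ⟨w, h1, i, hi, rfl, h3, h4, h5⟩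
      have h8 : w.n (i + 1) ∈ rd L om v := ha _ h3
      have h6 : om w = true := by rw [← ag_om h (Nat.succ_le_of_lt hi) h8]; exact h1
      rw [ag_mult h h8] at h5
      have h7 : w.n i ∈ rd L om v :=
        mem_rd.2 (Or.inr (Or.inr (Or.inr ⟨w, h6, i, hi, rfl, h5, y, hy, h3⟩)))
      exact ⟨w, h6, i, hi, rfl, h3, by rw [← ag_mult h h7]; exact h4, h5⟩
    · rintro ⟨w, h1, i, hi, rfl, h3, h4, h5⟩
      have h8 : w.n (i + 1) ∈ rd L om v := ha _ h3
      have h6 : om' w = true := by rw [ag_om h (Nat.succ_le_of_lt hi) h8]; exact h1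
      have h7 : w.n i ∈ rd L om v :=
        mem_rd.2 (Or.inr (Or.inr (Or.inr ⟨w, h1, i, hi, rfl, h5, y, hy, h3⟩)))
      exact ⟨w, h6, i, hi, rfl, h3, by rw [ag_mult h h7]; exact h4,
        by rw [ag_mult h h8]; exact h5⟩

theorem it_succ (hI : ITRStmt) (f : V → Option V) (j : ℕ) (u : V) :
    it f (j + 1) u = (it f j u).bind f := (hI V f).succ j u

theorem rds_fwd (hP : Pim C T) (hI : ITRStmt)
    (h : ∀ w : C.Wk T, w.meets (rd L om v) → om' w = om w) (j : ℕ) (hj : j ≤ L + 1) :
    it (cx om') j v = it (cx om) j v := by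
  induction j with
  | zero => rfl
  | succ j ih =>
    rw [it_succ hI, it_succ hI, ih (by omega)]
    cases hx : it (cx om) j v with
    | none => rfl
    | some x =>
      show cx om' x = cx om x
      have hxf : x ∈ fw L om v := mem_fw.2 ⟨j, by omega, hx⟩
      apply Option.ext
      intro y
      rw [hP.iff, hP.iff]
      exact arc_fw h hxf y

theorem rds_bwd (hP : Pim C T)
    (h : ∀ w : C.Wk T, w.meets (rd L om v) → om' w = om w) (j : ℕ) : ∀ (u : V), j ≤ L + 1 →
    (it (cx om') j u = some v ↔ it (cx om) j u = some v) := by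
  induction j with
  | zero => intro u _; exact Iff.rfl
  | succ j ih =>
    intro u hj
    show ((cx om' u).bind (it (cx om') j) = some v ↔ (cx om u).bind (it (cx om) j) = some v)
    rw [Option.bind_eq_some_iff, Option.bind_eq_some_iff]
    constructor
    · rintro ⟨u', h1, h2⟩
      rw [ih u' (by omega)] at h2
      have hb : u' ∈ bw L om v := mem_bw.2 ⟨j, by omega, h2⟩
      refine ⟨u', ?_, h2⟩
      rw [hP.iff] at h1 ⊢
      exact (arc_bw h hb u).1 h1
    · rintro ⟨u', h1, h2⟩
      have hb : u' ∈ bw L om v := mem_bw.2 ⟨j, by omega, h2⟩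
      refine ⟨u', ?_, (ih u' (by omega)).2 h2⟩
      rw [hP.iff] at h1 ⊢
      exact (arc_bw h hb u).2 h1

theorem fw_stop (hP : Pim C T) (hI : ITRStmt)
    (h : ∀ w : C.Wk T, w.meets (rd L om v) → om' w = om w) : fw L om' v = fw L om v := by
  ext u
  rw [mem_fw, mem_fw]
  refine exists_congr fun j => and_congr_right fun hj => ?_
  rw [rds_fwd hP hI h j (by omega)]

theorem bw_stop (hP : Pim C T)
    (h : ∀ w : C.Wk T, w.meets (rd L om v) → om' w = om w) : bw L om' v = bw L om v := by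
  ext u
  rw [mem_bw, mem_bw]
  refine exists_congr fun j => and_congr_right fun hj => ?_
  rw [rds_bwd hP h j u (by omega)]

theorem rds_stop (hP : Pim C T) (hI : ITRStmt)
    (h : ∀ w : C.Wk T, w.meets (rd L om v) → om' w = om w) : rd L om' v = rd L om v := by
  ext u
  rw [mem_rd, mem_rd, fw_stop hP hI h, bw_stop hP h]
  apply or_congr_right
  apply or_congr
  · constructor
    · rintro ⟨w, h1, i, hi, rfl, h2, h3⟩
      have hr : w.n i ∈ rd L om v := mem_rd.2 (Or.inl h2)
      exact ⟨w, by rw [← ag_om h hi.le hr]; exact h1, i, hi, rfl, h2,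
        by rw [← ag_mult h hr]; exact h3⟩
    · rintro ⟨w, h1, i, hi, rfl, h2, h3⟩
      have hr : w.n i ∈ rd L om v := mem_rd.2 (Or.inl h2)
      exact ⟨w, by rw [ag_om h hi.le hr]; exact h1, i, hi, rfl, h2,
        by rw [ag_mult h hr]; exact h3⟩
  · apply or_congr_right
    constructor
    · rintro ⟨w, h1, i, hi, rfl, h2, y, hy, h3⟩
      have hr : w.n (i + 1) ∈ rd L om v := mem_rd.2 (Or.inr (Or.inr (Or.inl ⟨y, hy, h3⟩)))
      exact ⟨w, by rw [← ag_om h (Nat.succ_le_of_lt hi) hr]; exact h1, i, hi, rfl,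
        by rw [← ag_mult h hr]; exact h2, y, hy, h3⟩
    · rintro ⟨w, h1, i, hi, rfl, h2, y, hy, h3⟩
      have hr : w.n (i + 1) ∈ rd L om v := mem_rd.2 (Or.inr (Or.inr (Or.inl ⟨y, hy, h3⟩)))
      exact ⟨w, by rw [ag_om h (Nat.succ_le_of_lt hi) hr]; exact h1, i, hi, rfl,
        by rw [ag_mult h hr]; exact h2, y, hy, h3⟩

theorem rem_ne {om : C.Wk T → Bool} {w w' : C.Wk T} (h : w' ≠ w) : rem om w w' = om w' := by
  unfold rem
  exact Function.update_of_ne h _ _

theorem rds_meet (hP : Pim C T) (hI : ITRStmt) (om : C.Wk T → Bool) (w : C.Wk T) (v : V) :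
    w.meets (rd L om v) ↔ w.meets (rd L (rem om w) v) := by
  constructor
  · intro h
    by_contra h1
    apply h1
    rw [← rds_stop hP hI (om := rem om w) (om' := om) (v := v)]
    · exact h
    · intro w' hw'
      symm
      apply rem_ne
      rintro rfl
      exact h1 hw'
  · intro h
    by_contra h1
    apply h1
    rw [← rds_stop hP hI (om := om) (om' := rem om w) (v := v)]
    · exact h
    · intro w' hw'
      apply rem_ne
      rintro rfl
      exact h1 hw'

theorem card_fw (hI : ITRStmt) (om : C.Wk T → Bool) (v : V) : (fw L om v).card ≤ L + 1 := by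
  have h := (hI V (cx om)).fwd L v
  unfold fw
  exact h

theorem card_bw (hP : Pim C T) (hI : ITRStmt) (om : C.Wk T → Bool) (v : V) :
    (bw L om v).card ≤ L + 1 := by
  have h := (hI V (cx om)).bwd (hP.inj om) L v
  unfold bw
  exact h

theorem pos_uniq (w : C.Wk T) {i j : ℕ} (hi : i ≤ T) (hj : j ≤ T) (h : w.n i = w.n j) : i = j :=
  w.2.inj i j hi hj h

theorem rds_card {d : ℝ} (hOk : C.Ok d) (hP : Pim C T) (hI : ITRStmt) (om : C.Wk T → Bool)
    (v : V) : (rd L om v).card ≤ 4 * (L + 1) + 1 := by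
  have hsub : rd L om v ⊆ fw L om v ∪
      (univ.filter fun u => ∃ w : C.Wk T, om w = true ∧ ∃ i, i < T ∧ w.n (i + 1) = u ∧
        w.n i ∈ fw L om v ∧ mult om (w.n i) = 1) ∪
      (univ.filter fun u => ∃ u' ∈ bw L om v, C.f u = some u') ∪
      (univ.filter fun u => ∃ w : C.Wk T, om w = true ∧ ∃ i, i < T ∧ w.n i = u ∧
        mult om (w.n (i + 1)) = 1 ∧ ∃ u' ∈ bw L om v, w.hd i u') := by
    intro u hu
    rw [mem_rd] at hu
    simp only [mem_union, mem_filter, mem_univ, true_and]
    rcases hu with h | h | h | h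
    · exact Or.inl (Or.inl (Or.inl h))
    · exact Or.inl (Or.inl (Or.inr h))
    · exact Or.inl (Or.inr h)
    · exact Or.inr h
  have h1 := card_fw (L := L) hI om v
  have hb := card_bw (L := L) hP hI om v
  have h2 : (univ.filter fun u => ∃ w : C.Wk T, om w = true ∧ ∃ i, i < T ∧ w.n (i + 1) = u ∧
        w.n i ∈ fw L om v ∧ mult om (w.n i) = 1).card ≤ (fw L om v).card := by
    apply card_le_rel _ _ (fun x u => ∃ w : C.Wk T, om w = true ∧ ∃ i, i < T ∧ w.n (i + 1) = u ∧
        w.n i = x ∧ mult om x = 1)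
    · intro u hu
      simp only [mem_filter, mem_univ, true_and] at hu
      obtain ⟨w, h3, i, hi, h4, h5, h6⟩ := hu
      exact ⟨w.n i, h5, w, h3, i, hi, h4, rfl, h6⟩
    · rintro x u u' ⟨w, h3, i, hi, rfl, h5, h6⟩ ⟨w', h3', i', hi', rfl, h5', h6'⟩
      have hw : w = w' := mult_one_uniq h6 h3 ⟨i, hi.le, h5⟩ h3' ⟨i', hi'.le, h5'⟩
      subst hw
      have := pos_uniq w hi.le hi'.le (h5.trans h5'.symm)
      rw [this]
  have h3 : (univ.filter fun u => ∃ u' ∈ bw L om v, C.f u = some u').card ≤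
      (bw L om v).card := by
    apply card_le_rel _ _ (fun u' u => C.f u = some u')
    · intro u hu
      simp only [mem_filter, mem_univ, true_and] at hu
      exact hu
    · intro y u u' h4 h5
      exact hOk.inj u u' y h4 h5
  have h4 : (univ.filter fun u => ∃ w : C.Wk T, om w = true ∧ ∃ i, i < T ∧ w.n i = u ∧
        mult om (w.n (i + 1)) = 1 ∧ ∃ u' ∈ bw L om v, w.hd i u').card ≤ (bw L om v).card := by
    apply card_le_rel _ _ (fun u' u => ∃ w : C.Wk T, om w = true ∧ ∃ i, i < T ∧ w.n i = u ∧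
        mult om (w.n (i + 1)) = 1 ∧ w.hd i u')
    · intro u hu
      simp only [mem_filter, mem_univ, true_and] at hu
      obtain ⟨w, h3, i, hi, h4, h5, u', h6, h7⟩ := hu
      exact ⟨u', h6, w, h3, i, hi, h4, h5, h7⟩
    · rintro y u u' ⟨w, h3, i, hi, rfl, h5, h6⟩ ⟨w', h3', i', hi', rfl, h5', h6'⟩
      have ha : w.n (i + 1) = w'.n (i' + 1) := hOk.inj _ _ y h6 h6'
      have hw : w = w' := mult_one_uniq h5 h3 ⟨i + 1, hi, rfl⟩ h3' ⟨i' + 1, hi', ha.symm⟩
      subst hw
      have := pos_uniq w (Nat.succ_le_of_lt hi) (Nat.succ_le_of_lt hi') ha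
      have h8 : i = i' := by omega
      rw [h8]
  calc (rd L om v).card ≤ _ := card_le_card hsub
    _ ≤ _ := (card_union_le _ _).trans (Nat.add_le_add_right ((card_union_le _ _).trans
        (Nat.add_le_add_right (card_union_le _ _) _)) _)
    _ ≤ 4 * (L + 1) + 1 := by omega

theorem card_fib (om : C.Wk T → Bool) (u : V) (g : C.Wk T → Finset V) (n : ℕ)
    (hg : ∀ w, (g w).card ≤ n) :
    (univ.filter fun v => ∃ w : C.Wk T, om w = true ∧ w.has u ∧ v ∈ g w).card ≤
      mult om u * n := by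
  have hsub : (univ.filter fun v => ∃ w : C.Wk T, om w = true ∧ w.has u ∧ v ∈ g w) ⊆
      (univ.filter fun w : C.Wk T => om w = true ∧ w.has u).biUnion g := by
    intro v hv
    simp only [mem_filter, mem_univ, true_and] at hv
    obtain ⟨w, h1, h2, h3⟩ := hv
    rw [mem_biUnion]
    exact ⟨w, mem_filter.2 ⟨mem_univ _, h1, h2⟩, h3⟩
  exact (card_le_card hsub).trans (card_biUnion_le_card_mul _ _ _ (fun w _ => hg w))

theorem rds_rev {d : ℝ} (hOk : C.Ok d) (hP : Pim C T) (hI : ITRStmt) (om : C.Wk T → Bool)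
    (u : V) : (univ.filter fun v => u ∈ rd L om v).card ≤ 2 * (L + 1) * (2 + mult om u) := by
  let g2 : C.Wk T → Finset V := fun w => univ.filter fun v => ∃ i, i < T ∧ w.n (i + 1) = u ∧
    w.n i ∈ fw L om v
  let g4 : C.Wk T → Finset V := fun w => univ.filter fun v => ∃ i, i < T ∧ w.n i = u ∧
    ∃ u' ∈ bw L om v, w.hd i u'
  have hg2 : ∀ w, (g2 w).card ≤ L + 1 := by
    intro w
    rcases (g2 w).eq_empty_or_nonempty with h | ⟨v, hv⟩
    · rw [h]; simp
    · simp only [g2, mem_filter, mem_univ, true_and] at hv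
      obtain ⟨i, hi, h1, h2⟩ := hv
      refine le_trans (card_le_card ?_) (card_bw (L := L) hP hI om (w.n i))
      intro v' hv'
      simp only [g2, mem_filter, mem_univ, true_and] at hv'
      obtain ⟨i', hi', h1', h2'⟩ := hv'
      have h3 := pos_uniq w (Nat.succ_le_of_lt hi) (Nat.succ_le_of_lt hi') (h1.trans h1'.symm)
      have h4 : i = i' := by omega
      rw [h4, mem_bw]
      exact mem_fw.1 h2'
  have hg4 : ∀ w, (g4 w).card ≤ L + 1 := by
    intro w
    rcases (g4 w).eq_empty_or_nonempty with h | ⟨v, hv⟩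
    · rw [h]; simp
    · simp only [g4, mem_filter, mem_univ, true_and] at hv
      obtain ⟨i, hi, h1, y, hy, h2⟩ := hv
      refine le_trans (card_le_card ?_) (card_fw (L := L) hI om y)
      intro v' hv'
      simp only [g4, mem_filter, mem_univ, true_and] at hv'
      obtain ⟨i', hi', h1', y', hy', h2'⟩ := hv'
      have h3 := pos_uniq w hi.le hi'.le (h1.trans h1'.symm)
      subst h3
      have h4 : y' = y := by
        unfold Wk.hd at h2 h2'
        rw [h2] at h2'
        exact (Option.some.inj h2').symm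
      rw [h4] at hy'
      rw [mem_fw]
      exact mem_bw.1 hy'
  have hsub : (univ.filter fun v => u ∈ rd L om v) ⊆ bw L om u ∪
      (univ.filter fun v => ∃ w : C.Wk T, om w = true ∧ w.has u ∧ v ∈ g2 w) ∪
      (univ.filter fun v => ∃ u' ∈ bw L om v, C.f u = some u') ∪
      (univ.filter fun v => ∃ w : C.Wk T, om w = true ∧ w.has u ∧ v ∈ g4 w) := by
    intro v hv
    simp only [mem_filter, mem_univ, true_and] at hv
    rw [mem_rd] at hv
    simp only [mem_union, mem_filter, mem_univ, true_and]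
    rcases hv with h | h | h | h
    · exact Or.inl (Or.inl (Or.inl (mem_bw.2 (mem_fw.1 h))))
    · obtain ⟨w, h1, i, hi, h2, h3, _⟩ := h
      refine Or.inl (Or.inl (Or.inr ⟨w, h1, ⟨i + 1, hi, h2⟩, ?_⟩))
      simp only [g2, mem_filter, mem_univ, true_and]
      exact ⟨i, hi, h2, h3⟩
    · exact Or.inl (Or.inr h)
    · obtain ⟨w, h1, i, hi, h2, h3, h4⟩ := h
      refine Or.inr ⟨w, h1, ⟨i, hi.le, h2⟩, ?_⟩
      simp only [g4, mem_filter, mem_univ, true_and]
      exact ⟨i, hi, h2, h4⟩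
  have h1 := card_bw (L := L) hP hI om u
  have h2 := card_fib om u g2 (L + 1) hg2
  have h4 := card_fib om u g4 (L + 1) hg4
  have h3 : (univ.filter fun v => ∃ u' ∈ bw L om v, C.f u = some u').card ≤ L + 1 := by
    cases hu : C.f u with
    | none => simp
    | some y =>
      refine le_trans (card_le_card ?_) (card_fw (L := L) hI om y)
      intro v hv
      simp only [mem_filter, mem_univ, true_and] at hv
      obtain ⟨u', h5, h6⟩ := hv
      rw [← Option.some.inj h6] at h5
      exact mem_fw.2 (mem_bw.1 h5)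
  calc (univ.filter fun v => u ∈ rd L om v).card ≤ _ := card_le_card hsub
    _ ≤ _ := (card_union_le _ _).trans (Nat.add_le_add_right ((card_union_le _ _).trans
        (Nat.add_le_add_right (card_union_le _ _) _)) _)
    _ ≤ (L + 1) + mult om u * (L + 1) + (L + 1) + mult om u * (L + 1) :=
        Nat.add_le_add (Nat.add_le_add (Nat.add_le_add h1 h2) h3) h4
    _ ≤ 2 * (L + 1) * (2 + mult om u) := by nlinarith

end rds

theorem rds (hP : PIMStmt) (hI : ITRStmt) : RDSStmt := by
  intro V _ C d T L hOk hL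
  have hp := hP V C d T hOk
  exact
    { card := fun om v => rds_card hOk hp hI om v
      self := fun om v => mem_rd.2 (Or.inl (mem_fw.2 ⟨0, Nat.zero_le _, rfl⟩))
      stop := fun om om' v h => rds_stop hp hI h
      fwd := fun om om' v h j hj => rds_fwd hp hI h j hj
      bwd := fun om om' v h j u hj => rds_bwd hp h j u hj
      meet := fun om w v => rds_meet hp hI om w v
      rev := fun om u => rds_rev hOk hp hI om u }

end

end Pool.Agent.C4K.H31
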