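import Pool.Agent.C4K.StDet

/-!
# MRK: marked nodes on the paths of the new class
-/

set_option autoImplicit false

namespace Pool.Agent.C4K.H31

open Finset Cl Pool.Agent.C4K
open scoped Classical

noncomputable section

theorem mrk (hP : PIMStmt) (hI : ITRStmt) : MRKStmt := by
  intro V _ C d T L1 hOk hL hMk om u m hne hdist
  have hp := hP V C d T hOk
  have : Nonempty V := ⟨u⟩
  have hblock : ∀ q, q < m / L1 → ∃ j x, q * L1 ≤ j ∧ j < (q + 1) * L1 ∧
      it (cx om) j u = some x ∧ C.M x := by
    intro q hq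
    have hb : (q + 1) * L1 ≤ m :=
      (Nat.mul_le_mul_right L1 hq).trans (Nat.div_mul_le_self m L1)
    have hb' : q * L1 + L1 ≤ m := by rw [Nat.add_mul, one_mul] at hb; exact hb
    by_contra hcon
    push Not at hcon
    obtain ⟨x0, hx0⟩ := Option.ne_none_iff_exists'.1 (hne (q * L1) (by omega))
    have hcl : ∀ i, i < L1 → it C.f i x0 = it (cx om) (q * L1 + i) u := by
      intro i
      induction i with
      | zero => intro _; exact hx0.symm
      | succ i ih =>
        intro hi
        have hi' := ih (by omega)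
        obtain ⟨x, hx⟩ := Option.ne_none_iff_exists'.1 (hne (q * L1 + i) (by omega))
        have h1 : it C.f (i + 1) x0 = (it C.f i x0).bind C.f := (hI V C.f).succ i x0
        have h2 : it (cx om) (q * L1 + i + 1) u = (it (cx om) (q * L1 + i) u).bind (cx om) :=
          (hI V (cx om)).succ _ u
        have hnm : ¬ C.M x := by
          apply hcon (q * L1 + i) x (by omega) _ hx
          rw [Nat.add_mul, one_mul]
          omega
        rw [h1, hi', ← add_assoc, h2, hx]
        exact (hp.unm om x hnm).symm
    have hex : ∀ j, j < L1 → it C.f j x0 ≠ none := by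
      intro j hj
      rw [hcl j hj]
      exact hne _ (by omega)
    obtain ⟨j, x, hj, hjx, hxM⟩ := hMk x0 hex
    rw [hcl j hj] at hjx
    refine hcon (q * L1 + j) x (by omega) ?_ hjx hxM
    rw [Nat.add_mul, one_mul]
    omega
  choose! J X hJ using hblock
  have hmap : ∀ q ∈ range (m / L1), X q ∈ univ.filter fun x => C.M x ∧
      ∃ j, j < m ∧ it (cx om) j u = some x := by
    intro q hq
    have hq' := mem_range.1 hq
    obtain ⟨h1, h2, h3, h4⟩ := hJ q hq'
    have hb : (q + 1) * L1 ≤ m :=
      (Nat.mul_le_mul_right L1 hq').trans (Nat.div_mul_le_self m L1)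
    exact mem_filter.2 ⟨mem_univ _, h4, J q, by omega, h3⟩
  have hlt : ∀ q q', q < m / L1 → q' < m / L1 → q < q' → X q ≠ X q' := by
    intro q q' hq hq' hlt heq
    obtain ⟨h1, h2, h3, h4⟩ := hJ q hq
    obtain ⟨h1', h2', h3', h4'⟩ := hJ q' hq'
    have h5 : (q + 1) * L1 ≤ q' * L1 := Nat.mul_le_mul_right L1 hlt
    have hb : (q' + 1) * L1 ≤ m :=
      (Nat.mul_le_mul_right L1 hq').trans (Nat.div_mul_le_self m L1)
    apply hdist (J q) (J q') (by omega) (by omega)
    rw [h3, h3', heq]
  have h := card_le_card_of_injOn X hmap (by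
    intro q hq q' hq' heq
    have h1 := mem_range.1 (mem_coe.1 hq)
    have h2 := mem_range.1 (mem_coe.1 hq')
    rcases lt_trichotomy q q' with h3 | h3 | h3
    · exact absurd heq (hlt q q' h1 h2 h3)
    · exact h3
    · exact absurd heq.symm (hlt q' q h2 h1 h3))
  rw [card_range] at h
  exact h

end

end Pool.Agent.C4K.H31
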